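import Pool.Agent.H26.K4.Finite

/-!
# The Beilinson–Bloch conjecture for `K_2` of curves: a finite list of number fields without
automorphisms and with at most one small prime decides it, for all curves at once

Let `K` be a number field (for the problem: `K = ℚ`) and fix any bound `X₀`. There are finitely many
number fields `L_1, …, L_r ⊇ K` which have no automorphism but the identity and at most one prime
ideal of norm `≤ X₀`, such that for EVERY curve `C` over `K`: if the conjecture (the regulator on the
integral part of `K_2 ⊗ ℚ` is an isomorphism, `L(H^1(C_{L_j}), s)` has a meromorphic continuation, its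
order at `s = 0` is the dimension of this space and its leading coefficient a rational multiple of the
determinant of the regulator) holds for the base changes `C_{L_1}, …, C_{L_r}`, then it holds for `C`.
The list depends on `K` and `X₀` only, neither on the curve nor on the model of the cohomology
theories; the same holds for projective varieties of any dimension, any degree and any twist (for the
problem: `d = i = 1`, `N = 2g`, `m = 0`).

All but one of the fields are those of a relation `1 = ∑ a_j Ind_{L_j}^K 1`; the last one, above the
normal closure of the others and again without automorphisms and with at most one small prime, makes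
the regulators of the others comparable (the comparison uses an equivariant lift of the regulator over
a Galois extension that contains the fields).
-/

set_option autoImplicit false

namespace Pool.Agent.Results.MP_743d1e_nt.FiniteListRigidFields

open NumberField IsDedekindDomain Polynomial Pool.Agent.Q5.RG Pool.Agent.Q5.VL
open Pool.Agent.Q5.BR (Ext)

/-- The identity is the only automorphism of the field `F`. -/
def NoAutomorphisms (F : Type) [Field F] : Prop :=
  ∀ (τ : F ≃+* F) (x : F), τ x = x

/-- The number field `F` has at most one prime ideal of norm `≤ X₀`. -/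
def AtMostOneSmallPrime (X₀ : ℕ) (F : Type) [Field F] [NumberField F] : Prop :=
  ∀ w w' : HeightOneSpectrum (𝓞 F),
    Ideal.absNorm w.asIdeal ≤ X₀ → Ideal.absNorm w'.asIdeal ≤ X₀ → w = w'

/-- Beilinson's conjecture for `X_F` at `s = m`: the regulator is an isomorphism; for all choices of
the bad Euler factors, `L(H^i(X_F), s)` has a meromorphic continuation to `Ω`; its order at `s = m` is
the dimension of motivic cohomology, and its leading coefficient a rational multiple of the determinant
of the regulator. -/
def Beilinson {K : Type} [Field K] [NumberField K] {n : ℕ} (X : Set (MvPolynomial (Fin n) (𝓞 K)))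
    (d i N : ℕ) (m : ℤ) (Ω : Set ℂ) (M : Spaces ℚ ℝ Gal(AlgebraicClosure K/K)) (F : Type) [Field F]
    [NumberField F] [Algebra K F] : Prop :=
  (∃ r c, M.Reg F r c) ∧
    ∀ B : HeightOneSpectrum (𝓞 F) → ℚ[X], Sys X d i N m F B → M.Pow m Ω F B 1

theorem result (K : Type) [Field K] [NumberField K] (X₀ : ℕ) :
    ∃ (ι : Type) (_ : Fintype ι) (L : ι → Ext K),
      -- the finite list
      (∀ j, NoAutomorphisms (L j).F ∧ AtMostOneSmallPrime X₀ (L j).F) ∧
      -- decides the conjecture for every variety
      ∀ (n : ℕ) (X : Set (MvPolynomial (Fin n) (𝓞 K))) (d i N : ℕ) (_ : i ≤ 2 * d) (m : ℤ)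
        (Ω : Set ℂ) (_ : IsDom Ω (m : ℂ))
        (_ : ∀ (F : Type) [Field F] [NumberField F] [Algebra K F], ∃ B, Sys X d i N m F B)
        (M : Spaces ℚ ℝ Gal(AlgebraicClosure K/K)) (_ : M.Good),
        (∀ j, Beilinson X d i N m Ω M (L j).F) → Beilinson X d i N m Ω M K := by
  obtain ⟨ι, _, Y, a, h1, h2, -, h4⟩ := Pool.Agent.H26.K4.finite_list K X₀
  refine ⟨ι, inferInstance, Y, fun j => ⟨h1 j, h2 j⟩, ?_⟩
  intro n X d i N hi m Ω hΩ hsys M hM h
  exact (Spaces.conj_iff hM.comp.onto).1 (h4 n X d i N hi m Ω hΩ hsys _ (Spaces.goodM hM) fun j =>
    (Spaces.conj_iff hM.comp.onto).2 (h j))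

end Pool.Agent.Results.MP_743d1e_nt.FiniteListRigidFields
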