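import Pool.Agent.H46.HT.Finite

/-!
# The Beilinson–Bloch conjecture for `K_2` of curves: number fields with at most one exceptional prime
suffice

Let `C` be a curve over a number field `K` (for the problem: `K = ℚ`), or any projective variety. The
conjecture for the base changes `C_F` at `s = m` (for `K_2` of a curve: `d = i = 1`, `N = 2g`, `m = 0`)
says that the regulator is an isomorphism, that `L(H^i(C_F), s)` has a meromorphic continuation, that its
order at `m` is the dimension of motivic cohomology and its leading coefficient a rational multiple of the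
determinant of the regulator.

The data: `S` is a finite set of primes of `K` (for instance those of bad reduction), `X₀` a bound and
`T` a finite extension of `K` (for instance a field over which the reduction becomes semistable).
A number field `F ⊇ K` is special if for some prime number `p` it has a Galois extension `F'` which
contains `T` and has a `p`-hyperelementary Galois group, and all prime ideals `w` of `F` but at most ONE
are harmless: the norm of `w` is greater than `X₀`, and either `w` does not lie over `S` and is unramified
in `F'`, or the decomposition groups of `w` in `F'/F` are `p`-groups.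

(1) There is a finite list of special fields `L_j` with a relation `1 = ∑ a_j Ind_{L_j}^K 1` between the
trivial character of the absolute Galois group of `K` and their permutation characters, such that for
EVERY variety over `K` the conjecture over the fields `L_j` implies it over `K`. The list depends on `K`,
`S`, `X₀`, `T` only.

(2) If the conjecture holds for the base changes of a variety over `K` to all special fields, then it
holds for its base changes to all finite extensions of `K`.

The relation is `Pool.Agent.H46.OP.one_bad_place_relation`; the laws for regulators are those of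
`Pool.Agent.Q5`, used before with other classes of fields.
-/

set_option autoImplicit false

namespace Pool.Agent.Results.MP_743d1e_nt.OneBadPlace

open NumberField IsDedekindDomain Polynomial Pool.Agent.Q5.RG Pool.Agent.Q5.VL
open Pool.Agent.Q5.BR (Ext)
open scoped Pointwise

/-- `p`-hyperelementary groups: a cyclic normal subgroup `C` of order prime to `p`, such that the
quotient by `C` is a `p`-group. -/
def Hyperelementary (p : ℕ) (G : Type) [Group G] : Prop :=
  ∃ C : Subgroup G, C.Normal ∧ IsCyclic C ∧ (Nat.card C).Coprime p ∧
    ∀ g : G, ∃ k : ℕ, g ^ p ^ k ∈ C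

section fields

variable {F : Type} [Field F] [NumberField F] (F' : Type) [Field F'] [NumberField F'] [Algebra F F']

/-- The inertia groups of the prime `w` of `F` in the Galois extension `F'` are trivial. -/
def Unramified (w : HeightOneSpectrum (𝓞 F)) : Prop :=
  ∀ W : HeightOneSpectrum (𝓞 F'), W.asIdeal.under (𝓞 F) = w.asIdeal →
    ∀ σ : Gal(F'/F), (∀ x : 𝓞 F', σ • x - x ∈ W.asIdeal) → σ = 1

/-- The decomposition groups of the prime `w` of `F` in the Galois extension `F'` are `p`-groups. -/
def DecomposesInPGroup (p : ℕ) (w : HeightOneSpectrum (𝓞 F)) : Prop :=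
  ∀ W : HeightOneSpectrum (𝓞 F'), W.asIdeal.under (𝓞 F) = w.asIdeal →
    ∀ σ : Gal(F'/F), σ • W.asIdeal = W.asIdeal → ∃ k : ℕ, σ ^ p ^ k = 1

/-- The prime `w` of `F ⊇ K` lies over the set `S` of primes of `K`. -/
def LiesOver {K : Type} [Field K] [NumberField K] [Algebra K F] (S : Set (HeightOneSpectrum (𝓞 K)))
    (w : HeightOneSpectrum (𝓞 F)) : Prop :=
  ∃ v ∈ S, w.asIdeal.under (𝓞 K) = v.asIdeal

/-- The prime `w` of `F` is exceptional: its norm is at most `X`, or its decomposition groups in `F'` are
not `p`-groups and it lies over `S` or ramifies in `F'`. -/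
def Exceptional {K : Type} [Field K] [NumberField K] [Algebra K F] (S : Set (HeightOneSpectrum (𝓞 K)))
    (X p : ℕ) (w : HeightOneSpectrum (𝓞 F)) : Prop :=
  Ideal.absNorm w.asIdeal ≤ X ∨ ((¬ Unramified F' w ∨ LiesOver S w) ∧ ¬ DecomposesInPGroup F' p w)

end fields

/-- Special number fields `F ⊇ K`, for a set `S` of primes of `K`, a bound `X` and an extension `T` of
`K`: for some prime number `p` there is a Galois extension `F'` of `F` with a `p`-hyperelementary group
which contains `T`, such that at most one prime of `F` is exceptional. -/
def Special {K : Type} [Field K] [NumberField K] (S : Set (HeightOneSpectrum (𝓞 K))) (X : ℕ)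
    (T : Type) [Field T] [Algebra K T] (F : Type) [Field F] [NumberField F] [Algebra K F] : Prop :=
  ∃ p : ℕ, p.Prime ∧ ∃ (F' : Type) (_ : Field F') (_ : NumberField F') (_ : Algebra F F'),
    IsGalois F F' ∧ Hyperelementary p Gal(F'/F) ∧
    (∃ j : T →+* F', ∀ x : K, j (algebraMap K T x) = algebraMap F F' (algebraMap K F x)) ∧
    ∀ w w' : HeightOneSpectrum (𝓞 F),
      Exceptional F' S X p w → Exceptional F' S X p w' → w = w'

/-- The number of the `K`-embeddings of `F` in the algebraic closure of `K` which are fixed by `σ`. -/
noncomputable def fixedEmbeddings (K F : Type) [Field K] [Field F] [Algebra K F]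
    (σ : Gal(AlgebraicClosure K/K)) : ℕ :=
  Nat.card {i : F →ₐ[K] AlgebraicClosure K // ∀ x, σ (i x) = i x}

/-- Beilinson's conjecture for `X_F` at `s = m`: the regulator is an isomorphism; for all choices of
the bad Euler factors, `L(H^i(X_F), s)` has a meromorphic continuation to `Ω`; its order at `s = m` is
the dimension of motivic cohomology, and its leading coefficient a rational multiple of the determinant
of the regulator. -/
def Beilinson {K : Type} [Field K] [NumberField K] {n : ℕ} (X : Set (MvPolynomial (Fin n) (𝓞 K)))
    (d i N : ℕ) (m : ℤ) (Ω : Set ℂ) (M : Spaces ℚ ℝ Gal(AlgebraicClosure K/K)) (F : Type) [Field F]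
    [NumberField F] [Algebra K F] : Prop :=
  (∃ r c, M.Reg F r c) ∧
    ∀ B : HeightOneSpectrum (𝓞 F) → ℚ[X], Sys X d i N m F B → M.Pow m Ω F B 1

/-- **Fields with at most one exceptional prime suffice.** -/
theorem result (K : Type) [Field K] [NumberField K] (S : Set (HeightOneSpectrum (𝓞 K)))
    (hS : S.Finite) (X₀ : ℕ) (T : Type) [Field T] [NumberField T] [Algebra K T] :
    -- (1) a finite list of special fields, and a relation between them, ...
    (∃ (ι : Type) (_ : Fintype ι) (L : ι → Ext K) (a : ι → ℤ),
      (∀ j, Special S X₀ T (L j).F) ∧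
      (∀ σ : Gal(AlgebraicClosure K/K), ∑ j, a j * (fixedEmbeddings K (L j).F σ : ℤ) = 1) ∧
      -- ... which decides the conjecture for every variety over `K`
      ∀ (n : ℕ) (X : Set (MvPolynomial (Fin n) (𝓞 K))) (d i N : ℕ) (_ : i ≤ 2 * d) (m : ℤ)
        (Ω : Set ℂ) (_ : IsDom Ω (m : ℂ))
        (_ : ∀ (F : Type) [Field F] [NumberField F] [Algebra K F], ∃ B, Sys X d i N m F B)
        (M : Spaces ℚ ℝ Gal(AlgebraicClosure K/K)) (_ : M.Good),
        (∀ j, Beilinson X d i N m Ω M (L j).F) → Beilinson X d i N m Ω M K) ∧
    -- (2) the conjecture over the special fields implies it over all extensions of `K`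
    ∀ (n : ℕ) (X : Set (MvPolynomial (Fin n) (𝓞 K))) (d i N : ℕ) (_ : i ≤ 2 * d) (m : ℤ)
      (Ω : Set ℂ) (_ : IsDom Ω (m : ℂ))
      (_ : ∀ (F : Type) [Field F] [NumberField F] [Algebra K F], ∃ B, Sys X d i N m F B)
      (M : Spaces ℚ ℝ Gal(AlgebraicClosure K/K)) (_ : M.Good),
      (∀ (F : Type) [Field F] [NumberField F] [Algebra K F], Special S X₀ T F →
        Beilinson X d i N m Ω M F) →
      ∀ (F : Type) [Field F] [NumberField F] [Algebra K F], Beilinson X d i N m Ω M F := by
  have hC := Pool.Agent.H46.OP.suffices_special K S hS X₀ T
  refine ⟨?_, ?_⟩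
  · obtain ⟨ι, _, Y, a, h1, h3, h4⟩ := Pool.Agent.H46.HT.finite_list_suff K hC
    refine ⟨ι, inferInstance, Y, a, fun j => h1 j, fun σ => ?_, ?_⟩
    · rw [← h3 σ]
      refine Finset.sum_congr rfl fun j _ => ?_
      congr 2
      unfold fixedEmbeddings Pool.Agent.W353.NF.fixn
      refine Nat.card_congr (Equiv.subtypeEquivRight fun i => ?_)
      rw [Pool.Agent.W353.NF.act_apply]
      constructor
      · intro h
        exact AlgHom.ext h
      · intro h x
        exact congrArg (fun z : (Y j).F →ₐ[K] AlgebraicClosure K => z x) h
    · intro n X d i N hi m Ω hΩ hsys M hM h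
      exact (Spaces.conj_iff hM.comp.onto).1 (h4 n X d i N hi m Ω hΩ hsys _ (Spaces.goodM hM)
        fun j => (Spaces.conj_iff hM.comp.onto).2 (h j))
  · intro n X d i N hi m Ω hΩ hsys M hM h F _ _ _
    exact (Spaces.conj_iff hM.comp.onto).1 (Pool.Agent.H46.HT.conj_all_suff hC hi hΩ hsys
      (Spaces.goodM hM) (fun F' _ _ _ hr => (Spaces.conj_iff hM.comp.onto).2 (h F' hr)) F)

end Pool.Agent.Results.MP_743d1e_nt.OneBadPlace
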