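import Pool.Agent.H67.PF.Beil

/-!
# The Beilinson–Bloch conjecture for `K_2` of curves: number fields without proper subfields suffice

Let `C` be a curve over `ℚ` (or over any number field `K`). The conjecture for the base change `C_F`
says that the regulator on the integral part of `K_2 ⊗ ℚ` is an isomorphism, that `L(H^1(C_F), s)` has a
meromorphic continuation, that its order at `s = 0` is the dimension of this space and its leading
coefficient a rational multiple of the determinant of the regulator. (In general: `H^i` of a projective
variety of dimension `d` with `N` Frobenius eigenvalues, at `s = m`; for this problem `d = i = 1`,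
`N = 2g`, `m = 0`.)

For an odd number `r` and a permutation `g` of `2r` points let `s_k(g)` be the number of the
`g`-invariant sets of `k` points and `p(g)` the number of the `g`-invariant partitions into two blocks
of `r` points. Then `1 = p(g) + s_1(g) - s_2(g) + ⋯ - s_{r-1}(g)`, and the stabilizers of the `k`-sets and
of these partitions are maximal subgroups of the symmetric group. So in an extension `L / ℚ` with group
`S_{2r}` the value `L(C, s)` at `s = 0` is decided by `r` fields `F_k` which have no subfields but `ℚ` and
`F_k`: for `r = 3` by three fields, of degrees `10`, `6` and `15`. For every `r` there are such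
extensions `L`, in which in addition any given primes and the real place split completely (so all
`F_k` are totally real).
-/

set_option autoImplicit false

namespace Pool.Agent.Results.MP_743d1e_nt.PrimitiveFields

open NumberField IsDedekindDomain Polynomial Pool.Agent.Q5.RG Pool.Agent.Q5.VL
open Pool.Agent.H67.Primitive

/-- Beilinson's conjecture for `X_F` at `s = m`: the regulator is an isomorphism; for all choices of
the bad Euler factors, `L(H^i(X_F), s)` has a meromorphic continuation to `Ω`; its order at `s = m` is
the dimension of motivic cohomology, and its leading coefficient a rational multiple of the determinant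
of the regulator. -/
def Beilinson {K : Type} [Field K] [NumberField K] {n : ℕ} (X : Set (MvPolynomial (Fin n) (𝓞 K)))
    (d i N : ℕ) (m : ℤ) (Ω : Set ℂ) (M : Spaces ℚ ℝ Gal(AlgebraicClosure K/K)) (F : Type) [Field F]
    [NumberField F] [Algebra K F] : Prop :=
  (∃ p c, M.Reg F p c) ∧
    ∀ B : HeightOneSpectrum (𝓞 F) → ℚ[X], Sys X d i N m F B → M.Pow m Ω F B 1

/-- **Primitive fields suffice.** Let `r ≥ 3` be odd.

1. For every number field `K` and every finite set `S` of primes of `K` there are a Galois extension
`L / K` with group `S_{2r}` and `r` different intermediate fields `F_k` of degrees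
`(2r choose r) / 2` (`k = 0`) and `(2r choose k)` (`1 ≤ k < r`), without fields strictly between `K` and
`F_k`, in which the primes in `S` and the real places of `K` split completely, with this property for
ALL `X / K` and all models `M` of the cohomology theories: if the regulator is an isomorphism over `L`
and the conjecture holds over the fields `F_k`, then it holds over `K`.

2. Let `X / K` and `M` be given, and a finite set `S F` of primes of `F` for all number fields `F ⊇ K`.
If the conjecture holds over all number fields `F'` which are special extensions (for `S F`) of a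
number field `F` with `K ⊆ F ⊆ F'`, then it holds over all number fields `F ⊇ K`. -/
theorem result (K : Type) [Field K] [NumberField K] (r : ℕ) (hr : Odd r) (h3 : 3 ≤ r) :
    -- (1) one extension with symmetric group
    (∀ S : Finset (HeightOneSpectrum (𝓞 K)),
      ∃ (L : Type) (_ : Field L) (_ : NumberField L) (_ : Algebra K L)
        (F : Fin r → IntermediateField K L), PrimitiveRelation r S F ∧
        ∀ (n : ℕ) (X : Set (MvPolynomial (Fin n) (𝓞 K))) (d i N : ℕ) (_ : i ≤ 2 * d) (m : ℤ)
          (Ω : Set ℂ) (_ : IsDom Ω (m : ℂ))
          (_ : ∀ (F : Type) [Field F] [NumberField F] [Algebra K F], ∃ B, Sys X d i N m F B)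
          (M : Spaces ℚ ℝ Gal(AlgebraicClosure K/K)) (_ : M.Good),
          (∃ p c, M.Reg L p c) → (∀ k, Beilinson X d i N m Ω M (F k)) →
            Beilinson X d i N m Ω M K) ∧
    -- (2) all extensions
    ∀ (n : ℕ) (X : Set (MvPolynomial (Fin n) (𝓞 K))) (d i N : ℕ) (_ : i ≤ 2 * d) (m : ℤ)
      (Ω : Set ℂ) (_ : IsDom Ω (m : ℂ))
      (_ : ∀ (F : Type) [Field F] [NumberField F] [Algebra K F], ∃ B, Sys X d i N m F B)
      (M : Spaces ℚ ℝ Gal(AlgebraicClosure K/K)) (_ : M.Good)
      (S : ∀ (F : Type) [Field F] [NumberField F] [Algebra K F], Finset (HeightOneSpectrum (𝓞 F))),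
      (∀ (F F' : Type) [Field F] [NumberField F] [Algebra K F] [Field F'] [NumberField F']
        [Algebra K F'] [Algebra F F'] [IsScalarTower K F F'], SpecialExtension r (S F) F' →
          Beilinson X d i N m Ω M F') →
      ∀ (F : Type) [Field F] [NumberField F] [Algebra K F], Beilinson X d i N m Ω M F := by
  refine ⟨fun S => ?_, ?_⟩
  · obtain ⟨L, _, _, _, F, hF⟩ := exists_primitive_relation K hr h3 S
    refine ⟨L, inferInstance, inferInstance, inferInstance, F, hF, ?_⟩
    intro n X d i N hi m Ω hΩ hsys M hM hL h
    exact (Spaces.conj_iff hM.comp.onto).1 (conjQ_base hF hi hΩ hsys (Spaces.goodM hM)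
      ((Spaces.ex_iff hM.comp.onto).1 hL) fun k => (Spaces.conj_iff hM.comp.onto).2 (h k))
  · intro n X d i N hi m Ω hΩ hsys M hM S h F _ _ _
    have hG := Spaces.goodM hM
    refine (Spaces.conj_iff hM.comp.onto).1 (conjQ_of_law
      (law_all (K := K) (lawQ_isLaw hi hΩ hG hsys) hr h3 S ?_ F))
    intro F1 F' _ _ _ _ _ _ _ _ hs
    refine law_of_conjQ ((Spaces.conj_iff hM.comp.onto).2 (h F1 F' hs)) fun F'' _ _ _ _ _ => ?_
    obtain ⟨Z, _, _, _, Y, hY⟩ := exists_primitive_relation F'' hr h3 (S F'')
    let k : Fin r := ⟨0, by omega⟩
    let _ : Algebra K (Y k) := ((algebraMap F'' (Y k)).comp (algebraMap K F'')).toAlgebra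
    have : IsScalarTower K F'' (Y k) := IsScalarTower.of_algebraMap_eq fun x => rfl
    exact Pool.Agent.Q5.RY.reg_sub_any hG (F' := Y k)
      ((Spaces.ex_iff hM.comp.onto).1 (h F'' (Y k) (hY.special k)).1)

end Pool.Agent.Results.MP_743d1e_nt.PrimitiveFields
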