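import Pool.Agent.H95.QF.Main
import Pool.Agent.H95.M.Q68_OV_Reg

/-!
# The regulator on `K_2` of curves over `ℚ` and systems of quadratic equations

**All curves.** For a Chow motive `N` over `ℚ` let `H^k_M(N, ℚ(n))_ℤ` be the integral part of the motivic
cohomology (Scholl), and `H^k_D(N_ℝ, ℝ(n))` the real Deligne cohomology. For a separated scheme `X` of
finite type over `ℚ` let `W(X)` be its weight complex (Gillet, Soulé), a complex of Chow motives, with
`W(X) = h(X)` for smooth projective `X`, and for `n, i ∈ ℤ`

`A^{n,i}(X) = H^i(H^{2n-2}_M(W(X), ℚ(n))_ℤ ⊗ ℝ)`, `B^{n,i}(X) = H^i(H^{2n-2}_D(W(X)_ℝ, ℝ(n)))`.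

The regulator induces maps `A^{n,i}(X) → B^{n,i}(X)`; `BijAll C X` says that they are isomorphisms for all
`n` and `i`. For a smooth projective curve `Y` one has `A^{2,0}(Y) = K_2(Y_ℤ) ⊗ ℝ` for a regular model
`Y_ℤ`, `B^{2,0}(Y) = H^1(Y(ℂ), ℝ(1))^+`, and the map is the regulator (`Regulator C Y`: it is an
isomorphism). That it is an isomorphism is the conjunction of part (i) of question Q1 and of part (iii) up
to torsion. All other groups `A^{n,i}(Y)`, `B^{n,i}(Y)` are zero if `Y` is a smooth projective curve (here
one uses that `K_2` of the ring of integers of a number field is finite), and in dimension zero all the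
groups are zero. These known facts enter by the hypotheses `point`, `zero` and `other`.

**One curve.** Let `S` be one smooth projective curve over `ℚ`. For a smooth projective scheme `Y` over `ℚ`
let `M^m(Y) = H_M^{2m-2}(Y, ℚ(m))_ℤ ⊗ ℝ` and `D^m(Y) = H_𝒟^{2m-2}(Y_ℝ, ℝ(m))`, with the regulator
`r : M^m(Y) → D^m(Y)`. The cycles `c` of codimension `m - 1` on `S × Y` operate by
`c_* : M^2(S) → M^m(Y)` and `c_* : D^2(S) → D^m(Y)`. Let `A^m(Y) ⊆ D^m(Y)` be the image of `r`, and
`B^m(Y) = B_1^m(Y) ⊕ B_2^m(Y)`, where `B_1^m(Y) ⊆ D^m(Y)` is the sum of `A^m(Y)` and of the images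
`c_* D^2(S)`, and `B_2^m(Y) ⊆ M^m(Y)` the sum of the images `c_* N` of the kernel `N` of the regulator for
`S`, for all these cycles `c`. They are additive functors of the Chow motive of `Y`, and the map
`A^m(Y) → B^m(Y)` is bijective if and only if `c_* N = 0` and `c_* D^2(S) ⊆ A^m(Y)` for all `c`
(`RegStable`). Put `A^{m,i}(Z) = H^i(A^m(W(Z)))`, `B^{m,i}(Z) = H^i(B^m(W(Z)))`. `At C m Z` says that the
maps `A^{m,i}(Z) → B^{m,i}(Z)` are isomorphisms for this `m` and all `i`.

The standard properties of these groups (long exact sequences of closed-open decompositions, affine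
bundles, `𝔾_m`, direct factors for the coverings `s ^ d = u`) are collected in `IsCyclicPair`; that smooth
projective schemes generate, in each dimension, is `WeightGen`.

Let `Built k n` be the smallest class of schemes which contains the affine schemes of dimension at most
`n` and is closed under closed-open decompositions (two out of three), affine bundles (in both
directions), division by `𝔾_m` and descent along the coverings `s ^ d = u`, `u` a unit. There is no
restriction on the dimension of the schemes in this class.

**Theorem.** (A) *All curves.* (A1) The regulator is an isomorphism for all smooth projective curves over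
`ℚ` if and only if all maps `A^{n,i}(X) → B^{n,i}(X)` are isomorphisms for all schemes in `Built ℚ 1`, of
any dimension.

(A2) It is an isomorphism for all smooth projective curves if all the maps are isomorphisms for the affine
schemes given by **three** equations of degree at most two, in any number of variables.

(A3) For the schemes in `Built ℚ 0`, of any dimension, all the maps are isomorphisms.

(B) *One curve.* There are finite lists `L`, `L'` of affine schemes given by equations of degree at most
two, three equations for those in `L`, which depend only on `S`, with the following properties.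

(B1) The regulator for `S` is an isomorphism if and only if all the maps `A^{m,i}(Z) → B^{m,i}(Z)` are
isomorphisms for the finitely many systems of **three** quadratic equations `Z` in `L`.

(B2) It is an isomorphism if and only if, for the finitely many systems of quadratic equations `Z` in `L'`
and the **one** index `m = 2`, the maps are isomorphisms for all `i`.

(B3) It is an isomorphism if and only if all the maps are isomorphisms for all schemes in `Built ℚ 1`, of
any dimension; and then they are isomorphisms for all separated schemes of finite type over `ℚ`. For all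
schemes in `Built ℚ 0` they are isomorphisms in any case.

(C) The class `Built ℚ n` contains all schemes given by `r + 1` quadratic equations and any number of
linear equations in any number of variables over an affine base `Spec A`, if `dim A + r ≤ n`. It contains
all closed subschemes of projective spaces which are the intersection of `n + 1` quadrics and hyperplanes.
So by (A3) the maps are isomorphisms for one quadratic and any linear equations over bases of dimension
zero, and by (A1) the conjecture for curves implies that they are isomorphisms for all systems of two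
quadratic and any linear equations, and for all intersections of two quadrics in projective spaces.
-/

set_option autoImplicit false

open CategoryTheory CategoryTheory.Limits AlgebraicGeometry Pool.Agent.Y116.UV Pool.Agent.Z125.UN
  Pool.Agent.Q193.LT Pool.Agent.Q49.WU Pool.Agent.Q68.OV Pool.Agent.H91.QS Pool.Agent.H95.QF

universe w u

namespace Pool.Agent.Results.MP_743d1e_nt.QuadraticSystems

/-- The regulator `A^{2,0}(Y) → B^{2,0}(Y)` is an isomorphism. -/
def Regulator (C : PairData.{w} ℚ (ℤ × ℤ) ℝ) (Y : Sch ℚ) : Prop :=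
  Function.Bijective (C.ρ (2, 0) Y).hom

/-- The known facts on curves: the maps are isomorphisms for the point and in dimension zero, and for
smooth projective curves in all degrees but `(2, 0)`. -/
structure CurveFacts (C : PairData.{w} ℚ (ℤ × ℤ) ℝ) : Prop where
  point : BijAll C (aff ℚ ℚ)
  zero : ∀ Y : Sch ℚ, SmoothProj Y → topologicalKrullDim Y.left ≤ (0 : ℕ) → BijAll C Y
  other : ∀ Y : Sch ℚ, SmoothProj Y → topologicalKrullDim Y.left ≤ (1 : ℕ) →
    ∀ j : ℤ × ℤ, j ≠ (2, 0) → Function.Bijective (C.ρ j Y).hom

/-- A smooth projective curve `S` over `ℚ` and the regulators: `M m Y` and `D m Y` are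
`H_M^{2m-2}(Y, ℚ(m))_ℤ ⊗ ℝ` and `H_𝒟^{2m-2}(Y_ℝ, ℝ(m))`, `reg` is the regulator, `Cyc m Y` the type of the
cycles of codimension `m - 1` on `S × Y`. -/
abbrev CurveData (S : Sch ℚ) := RegData.{w, 0, u} ℚ ℝ S 2

/-- The maps are isomorphisms for the index `m`. -/
def At (C : PairData.{w} ℚ (ℤ × ℤ) ℝ) (m : ℤ) (Z : Sch ℚ) : Prop := BijAt C Prod.fst m Z

lemma one_le_of_not_le_zero {x : WithBot ℕ∞} (h : ¬ x ≤ (0 : ℕ)) : ((1 : ℕ) : WithBot ℕ∞) ≤ x := by
  induction x with
  | bot => exact absurd bot_le h
  | coe n =>
    have h1 : ¬ n ≤ 0 := fun h2 => h (by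
      have h3 : ((n : ℕ∞) : WithBot ℕ∞) ≤ ((0 : ℕ∞) : WithBot ℕ∞) := WithBot.coe_le_coe.mpr h2
      exact_mod_cast h3)
    have h2 : (1 : ℕ∞) ≤ n := Order.one_le_iff_ne_zero.mpr fun h3 => h1 h3.le
    have h3 : ((1 : ℕ∞) : WithBot ℕ∞) ≤ ((n : ℕ∞) : WithBot ℕ∞) := WithBot.coe_le_coe.mpr h2
    exact_mod_cast h3

/-- **The regulator on `K_2` of curves over `ℚ` and systems of quadratic equations.** See the explanations
above. -/
theorem result :
    (∀ C : PairData.{w} ℚ (ℤ × ℤ) ℝ, IsCyclicPair C → WeightGen C → CurveFacts C →
      ((∀ Y : Sch ℚ, SmoothProj Y → topologicalKrullDim Y.left = (1 : ℕ) → Regulator C Y) ↔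
        ∀ X : Sch ℚ, Built ℚ 1 X → BijAll C X) ∧
      ((∀ X : Sch ℚ, IsQuadratic 3 X → BijAll C X) →
        ∀ Y : Sch ℚ, SmoothProj Y → topologicalKrullDim Y.left = (1 : ℕ) → Regulator C Y) ∧
      ∀ X : Sch ℚ, Built ℚ 0 X → BijAll C X) ∧
    (∀ S : Sch ℚ, SmoothProj S → topologicalKrullDim S.left ≤ (1 : ℕ) →
      ∃ L L' : List (Sch ℚ), (∀ X ∈ L, IsQuadratic 3 X) ∧ (∀ X ∈ L', ∃ m, IsQuadratic m X) ∧
        ∀ (D : CurveData.{w, u} S) (C : PairData.{w} ℚ (ℤ × ℤ) ℝ), IsReg D → IsCyclicPair C →
          WeightGen C → (∀ Y, SmoothProj Y → ∀ m, (At C m Y ↔ RegStable D m Y)) →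
          (zero : ∀ Y : Sch ℚ, SmoothProj Y → topologicalKrullDim Y.left ≤ (0 : ℕ) → BijAll C Y) →
          (Iso D ↔ ∀ X ∈ L, BijAll C X) ∧ (Iso D ↔ ∀ X ∈ L', At C 2 X) ∧
          (Iso D ↔ ∀ X : Sch ℚ, Built ℚ 1 X → BijAll C X) ∧
          (Iso D → ∀ X : Sch ℚ, FT True X → BijAll C X) ∧
          ∀ X : Sch ℚ, Built ℚ 0 X → BijAll C X) ∧
    ∀ n : ℕ, AffineQuadrics ℚ n (Built ℚ n) ∧ ProjectiveQuadrics ℚ n (Built ℚ n) := by
  refine ⟨fun C hC hg hf => ?_, fun S hS hn => ?_,
    fun n => ⟨affineQuadrics_built two_ne_zero n, projectiveQuadrics_built two_ne_zero n⟩⟩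
  · have hB := bnd_pair hC.pair hf.point
    have h1 : (∀ Y : Sch ℚ, SmoothProj Y → topologicalKrullDim Y.left = (1 : ℕ) → Regulator C Y) ↔
        ∀ X : Sch ℚ, FT True X → topologicalKrullDim X.left ≤ (1 : ℕ) → BijAll C X := by
      constructor
      · intro h
        refine hg 1 fun Y hY hn j => ?_
        by_cases hj : j = (2, 0)
        · subst hj
          by_cases h0 : topologicalKrullDim Y.left ≤ (0 : ℕ)
          · exact hf.zero Y hY h0 _
          · exact h Y hY (le_antisymm hn (one_le_of_not_le_zero h0))
        · exact hf.other Y hY hn j hj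
      · intro h Y hY hn
        exact h Y hY.ft hn.le (2, 0)
    refine ⟨h1.trans ⟨fun h X hX => of_built hB (coverings_pair hC) (fun A _ _ _ hA =>
      h _ (ft_aff True) (by rw [topDim_aff]; exact hA)) hX, fun h X hX hn =>
      of_affine_dim hB (fun A _ _ _ hA => h _ (.dim A hA)) X hX hn⟩,
      fun h => h1.mpr fun X hX hn => Pool.Agent.W5h93.QD.dim_of_quad hB
        (fun N q hq => h _ ⟨N, q, hq, rfl⟩) X hX hn, fun X hX =>
      of_built hB (coverings_pair hC) (fun A _ _ _ hA => hg 0 hf.zero _ (ft_aff True)
        (by rw [topDim_aff]; exact hA)) hX⟩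
  · obtain ⟨L, L', hL, hL', h⟩ := reach_quad.{u, w, 0} hS hn 0 2
    refine ⟨L, L', hL, hL', fun D C hD hC hg bij zero => ?_⟩
    have h3 := h ℝ (toReach D) C (isReach hD) hC hg
      (fun Y hY m => (bij Y hY m).trans (closed_iff m Y).symm) zero
    simp only [holds_iff] at h3
    exact h3

end Pool.Agent.Results.MP_743d1e_nt.QuadraticSystems
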